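import Pool.Agent.helper82.SC.SpecB

/-!
# sp: module SB, complement and monotonicity of prob
-/

namespace Pool.Agent.helper82.SC

theorem SB_fin (U : Finset V) (E : Finset V → Prop) : {s : Finset V | s ⊆ U ∧ E s}.Finite := by
  refine Set.Finite.subset (Finset.finite_toSet U.powerset) fun s hs => ?_
  exact Finset.mem_coe.2 (Finset.mem_powerset.2 hs.1)

theorem SB_all (U : Finset V) : {s : Finset V | s ⊆ U}.ncard = 2 ^ U.card := by
  have : {s : Finset V | s ⊆ U} = (U.powerset : Set (Finset V)) := by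
    ext s; simp
  rw [this, Set.ncard_coe_finset, Finset.card_powerset]

theorem SB : SB_stmt := by
  classical
  refine ⟨?_, ?_, ?_, ?_⟩
  · intro U E
    unfold prob
    congr 2
    refine Set.ncard_congr (fun s _ => U \ s) ?_ ?_ ?_
    · rintro s ⟨h1, h2⟩
      exact ⟨Finset.sdiff_subset, h2⟩
    · rintro s t ⟨h1, -⟩ ⟨h2, -⟩ h
      have h3 : U \ (U \ s) = U \ (U \ t) := by rw [h]
      rwa [Finset.sdiff_sdiff_eq_self h1, Finset.sdiff_sdiff_eq_self h2] at h3
    · rintro t ⟨h1, h2⟩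
      refine ⟨U \ t, ⟨Finset.sdiff_subset, ?_⟩, Finset.sdiff_sdiff_eq_self h1⟩
      show E (U \ (U \ t))
      rw [Finset.sdiff_sdiff_eq_self h1]
      exact h2
  · intro U E E' h
    unfold prob
    have h1 : {s : Finset V | s ⊆ U ∧ E s}.ncard ≤ {s : Finset V | s ⊆ U ∧ E' s}.ncard :=
      Set.ncard_le_ncard (fun s hs => ⟨hs.1, h s hs.1 hs.2⟩) (SB_fin U E')
    have h2 : ({s : Finset V | s ⊆ U ∧ E s}.ncard : ℝ) ≤
        ({s : Finset V | s ⊆ U ∧ E' s}.ncard : ℝ) := by exact_mod_cast h1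
    gcongr
  · intro U E
    unfold prob
    refine ⟨by positivity, ?_⟩
    rw [div_le_one (by positivity)]
    have h1 : {s : Finset V | s ⊆ U ∧ E s}.ncard ≤ {s : Finset V | s ⊆ U}.ncard := by
      refine Set.ncard_le_ncard (fun s hs => hs.1) ?_
      refine Set.Finite.subset (SB_fin U fun _ => True) fun s hs => ⟨hs, trivial⟩
    rw [SB_all] at h1
    exact_mod_cast h1
  · intro U E E' h
    unfold prob
    rw [← add_div, div_le_one (by positivity)]
    have hd : Disjoint {s : Finset V | s ⊆ U ∧ E s} {s : Finset V | s ⊆ U ∧ E' s} := by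
      rw [Set.disjoint_left]
      rintro s ⟨h1, h2⟩ ⟨-, h3⟩
      exact h s h1 ⟨h2, h3⟩
    have h1 : ({s : Finset V | s ⊆ U ∧ E s} ∪ {s : Finset V | s ⊆ U ∧ E' s}).ncard ≤
        {s : Finset V | s ⊆ U}.ncard := by
      refine Set.ncard_le_ncard ?_ ?_
      · rintro s (hs | hs)
        · exact hs.1
        · exact hs.1
      · refine Set.Finite.subset (SB_fin U fun _ => True) fun s hs => ⟨hs, trivial⟩
    rw [Set.ncard_union_eq hd (SB_fin U E) (SB_fin U E'), SB_all] at h1
    exact_mod_cast h1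

end Pool.Agent.helper82.SC
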